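import Pool.Agent.W593.ZT.Stm

/-! Project ZT: outcome (i) for the subgroup of order three. -/

open scoped Classical

set_option autoImplicit false

namespace Pool.Agent.W696.ZT

open Pool.Agent.W593.ZT

theorem k3i (hW : S_K3W) (hC3 : S_C3) (hComp : S_COMP) (hTree : S_TREE2) : S_K3I := by
  intro V G _ _ _ c M B W hK hWok hPL
  obtain ⟨Hp, L, A, hBH, hHW, hLW, hA, hcov, hcard⟩ := hPL
  obtain ⟨hU, hG, hV, hff⟩ := hW V G c M B hK
  have hnu := hK.nu
  -- two units
  have key : ∃ Z1 : Finset V, Z1 ⊆ Us c M B ∧ Disjoint Z1 Hp ∧ Disjoint Z1 L ∧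
      2 ≤ ∑ z ∈ Z1, ((Cs c B z).card - 1) := by
    rcases hWok with ⟨hWu, h2⟩ | ⟨y, hy, hy3, hWe⟩
    · subst hWu
      have hmin : min (nc c M Finset.univ B).card (M.index - 1) = (nc c M Finset.univ B).card := by
        apply min_eq_left
        omega
      rw [hmin] at hcard
      set T : Finset V := (Us c M B).filter (fun z => (Cs c B z).card = 2) with hT
      have h3 : ∑ z ∈ Us c M B, ((Cs c B z).card - 1) ≤ T.card := by
        rw [hT, Finset.card_filter]
        refine Finset.sum_le_sum fun z hz => ?_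
        have := h2 z hz
        split_ifs <;> omega
      set T' : Finset V := T \ ((Hp \ B) ∪ L) with hT'
      have h4 : T.card ≤ T'.card + ((Hp \ B).card + L.card) := by
        have h5 : T.card ≤ T'.card + ((Hp \ B) ∪ L).card := by
          have : T.card - ((Hp \ B) ∪ L).card ≤ T'.card := Finset.le_card_sdiff _ _
          omega
        have h6 := Finset.card_union_le (Hp \ B) L
        omega
      have h7 : 2 ≤ T'.card := by omega
      obtain ⟨Z1, hZ1, hZ1c⟩ := Finset.exists_subset_card_eq h7
      have hmem : ∀ z ∈ Z1, z ∈ Us c M B ∧ (Cs c B z).card = 2 ∧ z ∉ Hp ∧ z ∉ L := by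
        intro z hz
        have h8 := hZ1 hz
        rw [hT', Finset.mem_sdiff, hT, Finset.mem_filter, Finset.mem_union, Finset.mem_sdiff,
          not_or] at h8
        obtain ⟨⟨h9, h10⟩, h11, h12⟩ := h8
        refine ⟨h9, h10, ?_, h12⟩
        intro h13
        apply h11
        refine ⟨h13, ?_⟩
        unfold Us at h9
        rw [Finset.mem_sdiff, Finset.mem_sdiff] at h9
        exact h9.1.2
      refine ⟨Z1, fun z hz => (hmem z hz).1, ?_, ?_, ?_⟩
      · rw [Finset.disjoint_left]
        exact fun z hz => (hmem z hz).2.2.1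
      · rw [Finset.disjoint_left]
        exact fun z hz => (hmem z hz).2.2.2
      · rw [Finset.sum_congr rfl fun z hz => by rw [(hmem z hz).2.1]]
        simp [hZ1c]
    · subst hWe
      refine ⟨{y}, by simpa using hy, ?_, ?_, ?_⟩
      · rw [Finset.disjoint_singleton_left]
        intro h
        have := hHW h
        simp at this
      · rw [Finset.disjoint_singleton_left]
        intro h
        have := hLW h
        simp at this
      · rw [Finset.sum_singleton, hy3]
  obtain ⟨Z1, hZU, hZH, hZL, hZ2⟩ := key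
  have hc1 : Cov ⊥ M Z1 (Cs c B) :=
    hC3 V G M hK.k3 Z1 (Cs c B) (fun z hz => ⟨(hU z (hZU hz)).1, (hU z (hZU hz)).2.1⟩) hZ2
  have hc2 := hComp V G ⊥ M ⊤ Z1 L (Cs c B) A le_top hZL
    (fun z hz => ⟨(hU z (hZU hz)).1, (hU z (hZU hz)).2.1⟩) (fun z hz => (hA z hz).1) hc1 hcov
  refine hK.ctx.not (hTree V G c hK.ctx.sym Hp (Z1 ∪ L) _ (hK.ne.mono hBH) ?_ ?_ hc2)
  · intro z hz
    rw [Finset.mem_sdiff]
    refine ⟨Finset.mem_univ z, ?_⟩
    rcases Finset.mem_union.1 hz with h | h
    · exact Finset.disjoint_left.1 hZH h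
    · exact (Finset.mem_sdiff.1 (hLW h)).2
  · intro z hz
    by_cases h : z ∈ Z1
    · simp only [h, if_true]
      exact ⟨(hU z (hZU h)).1, Finset.image_subset_image hBH⟩
    · simp only [h, if_false]
      have h' : z ∈ L := by
        rcases Finset.mem_union.1 hz with h1 | h1
        · exact absurd h1 h
        · exact h1
      exact hA z h'

end Pool.Agent.W696.ZT
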